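import Mathlib
import Pool.Agent.MP_adf6dd_al.lt.Main

set_option autoImplicit false

namespace Pool.Agent.Results.MP_adf6dd_al.LieType

open Pool.Agent.MP_adf6dd_al

/-- The inequality of the problem, with any exponent below two, for all large groups whose
nonabelian composition factors are of bounded order, alternating, two-dimensional linear, of Lie
type (Chevalley, Steinberg, Suzuki, Ree), or have a rational extendible character and a long cyclic
subgroup with few conjugate generators. -/
theorem result (b K : ℕ) (a : ℝ) (ha : a < 2) :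
    ∃ B : ℕ, ∀ (G : Type) [Group G] [Finite G], B ≤ Nat.card G →
    (∀ (H : Subgroup G) (T : Type) [Group T] [IsSimpleGroup T] (φ : H →* T), H.IsSubnormal →
      Function.Surjective φ → ¬ IsMulCommutative T →
        Nat.card T ≤ b ∨
        ((∃ n : ℕ, Nonempty (T ≃* alternatingGroup (Fin n))) ∨
          ∃ (F : Type) (_ : Field F) (_ : Finite F),
            Nonempty (T ≃* Matrix.ProjectiveSpecialLinearGroup (Fin 2) F)) ∨
        LieT T ∨
        ((∃ ψ ∈ Irr (MulAut T), fieldOf ψ = ⊥ ∧
            (fun t : T => ψ (MulAut.conj t)) ∈ Irr T ∧ ψ 1 ≠ 1) ∧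
          ∃ x : T, Nat.card T ≤ 2 ^ (Nat.log 2 (orderOf x) + 1) ^ K ∧
            {y | y ∈ Subgroup.zpowers x ∧ ∃ α : MulAut T, α x = y}.ncard ≤
              (Nat.log 2 (orderOf x) + 1) ^ K)) →
    Real.logb 2 (Real.logb 2 (Nat.card G)) ^ a ≤ fieldMult G :=
  LT.rows.fin LT.corS b K a ha

end Pool.Agent.Results.MP_adf6dd_al.LieType
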