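import Mathlib
import Pool.Agent.MP_adf6dd_al.h59.All

set_option autoImplicit false

namespace Pool.Agent.Results.MP_adf6dd_al.Reduction

open Pool.Agent.MP_adf6dd_al

/-- `log₂ |G|` is bounded in terms of `f(G)` and of the nonabelian composition factors. -/
theorem result : ∃ C c : ℕ, ∀ (G : Type) [Group G] [Finite G] (P : Finset ℕ) (s : ℕ),
    (∀ (H : Subgroup G) (T : Type) [Group T] [IsSimpleGroup T] (φ : H →* T), H.IsSubnormal →
      Function.Surjective φ → ¬ IsMulCommutative T →
        Nat.card T ≤ 2 ^ s ∧ (Nat.card T).primeFactors ⊆ P) →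
    Nat.card G ≤ 2 ^ (C * (s + 1) ^ c * (fieldMult G + 1) ^ (c * (P.card + 1))) :=
  Red.main Red.secS Red.soc2T Red.priT Red.sizeT Red.minT

end Pool.Agent.Results.MP_adf6dd_al.Reduction
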